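import Pool.Agent.L0h45.AV.Stm

/-!
# Project AV, module SPL: the greatest common divisor
-/

set_option autoImplicit false
set_option linter.all false

namespace Pool.Agent.L0h57.AV.SPLM

open Pool.Agent.N874.PP (Tup chA chB gq tau Ev)
open Pool.Agent.L0h45.AV

theorem nsq {M : ℕ} {a : ℤ} {β : Tup ℤ} {x y : ℤ} (h2 : 2 ∣ M) (hok : Ok M a β)
    (hx : (M : ℤ) ∣ x - β.x) (hy : (M : ℤ) ∣ y - β.y) {p : ℕ} (hp : p.Prime) (hpM : p ∣ M) :
    ¬ p * p ∣ Int.gcd x (2 * y) := by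
  intro hd
  have hd' : ((p * p : ℕ) : ℤ) ∣ (Int.gcd x (2 * y) : ℤ) := by exact_mod_cast hd
  have hdx : ((p * p : ℕ) : ℤ) ∣ x := hd'.trans (Int.gcd_dvd_left _ _)
  have hdy : ((p * p : ℕ) : ℤ) ∣ 2 * y := hd'.trans (Int.gcd_dvd_right _ _)
  have hpp : ((p : ℕ) : ℤ) ∣ ((p * p : ℕ) : ℤ) := by
    push_cast
    exact dvd_mul_right _ _
  have hpx : (p : ℤ) ∣ x := hpp.trans hdx
  have hpM' : (p : ℤ) ∣ (M : ℤ) := by exact_mod_cast hpM
  have hpβx : (p : ℤ) ∣ β.x := (dvd_sub_right hpx).1 (hpM'.trans hx)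
  have hpI : Prime (p : ℤ) := Nat.prime_iff_prime_int.1 hp
  rcases hp.eq_two_or_odd' with h | hodd
  · subst h
    have h3 : (2 : ℤ) ∣ y := by
      obtain ⟨k, hk⟩ := hdy
      refine ⟨k, ?_⟩
      push_cast at hk
      linarith
    obtain ⟨h4, -⟩ := hok.two (by exact_mod_cast hpβx)
    exact h4 ((dvd_sub_right h3).1 ((by exact_mod_cast hpM' : (2 : ℤ) ∣ (M : ℤ)).trans hy))
  · have hne : p ≠ 2 := by
      rintro rfl
      exact absurd hodd (by decide)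
    have hpy : (p : ℤ) ∣ y := by
      rcases hpI.dvd_or_dvd (hpp.trans hdy) with h | h
      · exfalso
        have h4 : p ∣ 2 := by exact_mod_cast h
        exact hne ((Nat.prime_dvd_prime_iff_eq hp Nat.prime_two).1 h4)
      · exact h
    have hpβy : (p : ℤ) ∣ β.y := (dvd_sub_right hpy).1 (hpM'.trans hy)
    obtain ⟨-, h4, h5, -⟩ := hok.odd p hp hne hpM hpβx hpβy
    apply h5
    have h6 : ((p : ℤ)) ^ 2 ∣ (M : ℤ) := by exact_mod_cast h4
    have h7 : ((p : ℤ)) ^ 2 ∣ x := by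
      rw [sq]
      exact_mod_cast hdx
    exact (dvd_sub_right h7).1 (h6.trans hx)

theorem t_SPL : S_SPL := by
  intro M a β x y hM h2 hok hx hy hx0
  have hG : Int.gcd x (2 * y) ≠ 0 := by
    intro h
    exact hx0 (Int.gcd_eq_zero_iff.1 h).1
  obtain ⟨g, hg⟩ := Nat.gcd_dvd_left (Int.gcd x (2 * y)) M
  refine ⟨Nat.gcd (Int.gcd x (2 * y)) M, g, hg, Nat.gcd_dvd_right _ _, ?_⟩
  apply Nat.coprime_of_dvd
  intro p hp hpg hpM
  have h3 : p ∣ Nat.gcd (Int.gcd x (2 * y)) M := by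
    refine Nat.dvd_gcd ?_ hpM
    rw [hg]
    exact hpg.mul_left _
  apply nsq h2 hok hx hy hp hpM
  rw [hg]
  exact mul_dvd_mul h3 hpg

end Pool.Agent.L0h57.AV.SPLM
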