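import Pool.Agent.L0h45.AV.Stm3
import Pool.Agent.L0h28.AV.RDXn

/-! Module UNIn of project AV: the zero in the upper half plane is unique (from the file of helper28). -/

set_option autoImplicit false

namespace Pool.Agent.L0h57.AV

open Pool.Agent.L0h45.AV

theorem t_UNIn : S_UNIn := fun p v θ C S p' v' θ' C' S' hv hv' hA h =>
  Pool.Agent.L0h28.AV.uniq2n p v θ C S p' v' θ' C' S' hv hv' hA h

end Pool.Agent.L0h57.AV
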